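import Mathlib

namespace Pool.Agent.Results.MP_7acd66_nt.OddTermBeyond1155

/-- The perfect deficiency of `n`: list the divisors of `n` in increasing order, start with the
remainder `n`, and for each divisor `d` in turn replace the remainder `r` by `r - d` if `d ≤ r`
and leave it unchanged if `r < d`; the value is the last remainder. -/
def pd (n : ℕ) : ℕ :=
  (n.divisors.sort (· ≤ ·)).foldl (fun r d => if d ≤ r then r - d else r) n

theorem foldl_of_sum_le (l : List ℕ) (r : ℕ) (h : l.sum ≤ r) :
    l.foldl (fun r d => if d ≤ r then r - d else r) r = r - l.sum := by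
  induction l generalizing r with
  | nil => simp
  | cons a t ih =>
    simp only [List.sum_cons] at h
    have ha : a ≤ r := by omega
    simp only [List.foldl_cons, ha, if_true, List.sum_cons]
    rw [ih (r - a) (by omega)]
    omega

theorem sort_divisors (n : ℕ) (hn : n ≠ 0) :
    n.divisors.sort (· ≤ ·) = n.properDivisors.sort (· ≤ ·) ++ [n] := by
  apply List.Perm.eq_of_pairwise' (r := (· ≤ ·))
  · exact Finset.pairwise_sort _ _
  · rw [List.pairwise_append]
    refine ⟨Finset.pairwise_sort _ _, by simp, ?_⟩
    intro a ha b hb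
    simp only [Finset.mem_sort, Nat.mem_properDivisors] at ha
    simp only [List.mem_singleton] at hb
    subst hb
    exact ha.2.le
  · rw [List.perm_ext_iff_of_nodup (Finset.sort_nodup _ _)]
    · intro a
      simp only [Finset.mem_sort, List.mem_append, List.mem_singleton]
      rw [← Nat.insert_self_properDivisors hn]
      simp [or_comm]
    · rw [List.nodup_append]
      refine ⟨Finset.sort_nodup _ _, by simp, ?_⟩
      intro a ha b hb
      simp only [Finset.mem_sort, Nat.mem_properDivisors] at ha
      simp only [List.mem_singleton] at hb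
      subst hb
      exact ha.2.ne

theorem sum_sort (s : Finset ℕ) : (s.sort (· ≤ ·)).sum = ∑ d ∈ s, d := by
  have h := Finset.sort_eq s (· ≤ ·)
  have h2 : ((s.sort (· ≤ ·) : List ℕ) : Multiset ℕ).sum = s.1.sum := by rw [h]
  rw [Multiset.sum_coe] at h2
  rw [h2]
  simp

/-- For a deficient number the perfect deficiency is the ordinary deficiency. -/
theorem pd_eq_of_deficient (n : ℕ) (hn : n ≠ 0) (h : ∑ d ∈ n.properDivisors, d ≤ n)
    (h1 : 0 < ∑ d ∈ n.properDivisors, d) :
    pd n = n - ∑ d ∈ n.properDivisors, d := by
  unfold pd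
  have h2 : ((n.properDivisors.sort (· ≤ ·)).foldl (fun r d => if d ≤ r then r - d else r) n)
      = n - ∑ d ∈ n.properDivisors, d := by
    rw [foldl_of_sum_le _ _ (by rw [sum_sort]; exact h), sum_sort]
  rw [sort_divisors n hn, List.foldl_append, h2]
  simp only [List.foldl_cons, List.foldl_nil]
  rw [if_neg]
  omega

theorem pd_eq_of_sum_divisors (n k : ℕ) (hk : k < n) (h : ∑ d ∈ n.divisors, d + k = 2 * n) :
    pd n = k := by
  rw [Nat.sum_divisors_eq_sum_properDivisors_add_self] at h
  rw [pd_eq_of_deficient n (by omega) (by omega) (by omega)]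
  omega

theorem sum_divisors_witness : ∑ d ∈ (815634435 : ℕ).divisors, d = 1631268864 := by
  have e : (815634435 : ℕ) = 3 * (5 * (7 * (11 * (547 * 1291)))) := by norm_num
  rw [e]
  rw [Nat.Coprime.sum_divisors_mul (by norm_num), Nat.Coprime.sum_divisors_mul (by norm_num),
    Nat.Coprime.sum_divisors_mul (by norm_num), Nat.Coprime.sum_divisors_mul (by norm_num),
    Nat.Coprime.sum_divisors_mul (by norm_num)]
  rw [Nat.Prime.sum_divisors (by norm_num), Nat.Prime.sum_divisors (by norm_num),
    Nat.Prime.sum_divisors (by norm_num), Nat.Prime.sum_divisors (by norm_num),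
    Nat.Prime.sum_divisors (by norm_num), Nat.Prime.sum_divisors (by norm_num)]
  norm_num

/-- `815634435 = 3 * 5 * 7 * 11 * 547 * 1291` is an odd number larger than `1155` whose perfect
deficiency is `6`, so `1155` is not the largest odd number of perfect deficiency at most `10`. -/
theorem result : Odd 815634435 ∧ 1155 < 815634435 ∧ pd 815634435 = 6 := by
  refine ⟨⟨407817217, by norm_num⟩, by norm_num, ?_⟩
  exact pd_eq_of_sum_divisors 815634435 6 (by norm_num) (by rw [sum_divisors_witness])

end Pool.Agent.Results.MP_7acd66_nt.OddTermBeyond1155
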